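import Pool.Agent.W792.WA.Stm

/-!
# Bounded weakly analytic functions (norming set) are analytic
-/

set_option autoImplicit false

namespace Pool.Agent.W973.WA.Holp

open Filter Topology Metric Set

theorem main : Pool.Agent.W792.WA.S_HOLP := by
  intro E _ _ _ Λ O f C hO hΛ hn hC hd t₀ ht₀
  obtain ⟨R, hR, hRO⟩ := Metric.isOpen_iff.1 hO t₀ ht₀
  have hC0 : 0 ≤ C := (norm_nonneg _).trans (hC t₀ ht₀)
  set B : ℝ := 2 * C / R with hB
  have hB0 : 0 ≤ B := by positivity
  set K : ℝ := 2 * B / (R / 2) with hK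
  have hK0 : 0 ≤ K := by positivity
  -- the scalar estimate
  have key : ∀ l ∈ Λ, ∀ z ∈ ball t₀ (R / 4), ∀ z' ∈ ball t₀ (R / 4),
      dist (dslope (fun t => l (f t)) t₀ z) (dslope (fun t => l (f t)) t₀ z') ≤
        K * dist z z' := by
    intro l hl z hz z' hz'
    have hb : ∀ t ∈ O, ‖l (f t)‖ ≤ C := fun t ht =>
      (l.le_of_opNorm_le (hΛ l hl) (f t)).trans (by rw [one_mul]; exact hC t ht)
    have hdl : DifferentiableOn ℂ (fun t => l (f t)) (ball t₀ R) := (hd l hl).mono hRO
    have hds : DifferentiableOn ℂ (dslope (fun t => l (f t)) t₀) (ball t₀ R) :=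
      (Complex.differentiableOn_dslope (ball_mem_nhds _ hR)).2 hdl
    have hmaps : MapsTo (fun t => l (f t)) (ball t₀ R)
        (closedBall ((fun t => l (f t)) t₀) (2 * C)) := by
      intro t ht
      rw [mem_closedBall, dist_eq_norm]
      refine (norm_sub_le _ _).trans ?_
      have h1 := hb t (hRO ht)
      have h2 := hb t₀ ht₀
      show ‖l (f t)‖ + ‖l (f t₀)‖ ≤ 2 * C
      linarith
    have hq : ∀ t ∈ ball t₀ R, ‖dslope (fun t => l (f t)) t₀ t‖ ≤ B := fun t ht =>
      Complex.norm_dslope_le_div_of_mapsTo_ball hdl hmaps ht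
    have hsub : ball z' (R / 2) ⊆ ball t₀ R := by
      intro t ht
      rw [mem_ball] at ht hz' ⊢
      have := dist_triangle t z' t₀
      linarith
    have hz'R : z' ∈ ball t₀ R := by
      rw [mem_ball] at hz' ⊢
      linarith
    refine Complex.dist_le_div_mul_dist_of_mapsTo_ball (hds.mono hsub) ?_ ?_
    · intro t ht
      rw [mem_closedBall, dist_eq_norm]
      refine (norm_sub_le _ _).trans ?_
      have h1 := hq t (hsub ht)
      have h2 := hq z' hz'R
      linarith
    · rw [mem_ball] at hz hz' ⊢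
      have := dist_triangle_right z z' t₀
      linarith
  -- the slope is Lipschitz on the punctured ball
  have lip : ∀ z ∈ ball t₀ (R / 4) \ {t₀}, ∀ z' ∈ ball t₀ (R / 4) \ {t₀},
      dist (slope f t₀ z) (slope f t₀ z') ≤ K * dist z z' := by
    intro z hz z' hz'
    rw [dist_eq_norm]
    refine hn _ _ (mul_nonneg hK0 dist_nonneg) fun l hl => ?_
    have h := key l hl z hz.1 z' hz'.1
    rw [dslope_of_ne _ hz.2, dslope_of_ne _ hz'.2, dist_eq_norm] at h
    have e : ∀ y : ℂ, slope (fun t => l (f t)) t₀ y = l (slope f t₀ y) := by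
      intro y
      simp only [slope_def_module, map_smul, map_sub]
    rwa [e, e, ← map_sub] at h
  have hL : LipschitzOnWith (Real.toNNReal K) (slope f t₀) (ball t₀ (R / 4) \ {t₀}) := by
    refine LipschitzOnWith.of_dist_le_mul fun z hz z' hz' => ?_
    rw [Real.coe_toNNReal K hK0]
    exact lip z hz z' hz'
  have hmem : ball t₀ (R / 4) \ {t₀} ∈ 𝓝[≠] t₀ := by
    refine mem_nhdsWithin.2 ⟨ball t₀ (R / 4), isOpen_ball, mem_ball_self (by positivity), ?_⟩
    intro z hz
    exact ⟨hz.1, hz.2⟩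
  have hca : Cauchy (map (slope f t₀) (𝓝[≠] t₀)) := by
    have h1 : Cauchy (𝓝[≠] t₀) := cauchy_nhds.mono nhdsWithin_le_nhds
    exact h1.map_of_le hL.uniformContinuousOn (le_principal_iff.2 hmem)
  obtain ⟨f', hf'⟩ := cauchy_map_iff_exists_tendsto.1 hca
  exact (hasDerivAt_iff_tendsto_slope.2 hf').differentiableAt.differentiableWithinAt

end Pool.Agent.W973.WA.Holp
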